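import Mathlib

namespace Pool.Agent.Results.MP_09575c_lc.Counter

open Finset

/-- Submodular real functions on `B_k`. -/
def Submod {k : ℕ} (f : (Fin k → Bool) → ℝ) : Prop :=
  ∀ u v, f (u ⊓ v) + f (u ⊔ v) ≤ f u + f v

/-- `f` is expressible by binary submodular functions, with `j` extra variables. -/
def Expressible {k : ℕ} (f : (Fin k → Bool) → ℝ) : Prop :=
  ∃ (j n : ℕ) (g : Fin n → (Fin 2 → Bool) → ℝ) (α : Fin n → ℝ) (z z' : Fin n → Fin k ⊕ Fin j)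
    (κ : ℝ), (∀ i, Submod (g i)) ∧ (∀ i, 0 ≤ α i) ∧ ∀ x, IsLeast (Set.range fun y : Fin j → Bool =>
      ∑ i, α i * g i ![Sum.elim x y (z i), Sum.elim x y (z' i)] + κ) (f x)

open Classical in
/-- Upper and lower fans. -/
def IsFan {k : ℕ} (φ : (Fin k → Bool) → ℝ) : Prop :=
  ∃ A : Finset (Fin k → Bool), (∀ a ∈ A, ∀ b ∈ A, a ≤ b → a = b) ∧
    (((∀ a ∈ A, ∀ b ∈ A, a ≠ b → a ⊔ b = A.sup id) ∧
      ∀ x, φ x = if A.sup id ≤ x then -2 else if ∃ a ∈ A, a ≤ x then -1 else 0) ∨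
    ((∀ a ∈ A, ∀ b ∈ A, a ≠ b → a ⊓ b = A.inf id) ∧
      ∀ x, φ x = if x ≤ A.inf id then -2 else if ∃ a ∈ A, x ≤ a then -1 else 0))

/-- The cone spanned by the fans, up to an additive constant. -/
def InCone {k : ℕ} (f : (Fin k → Bool) → ℝ) : Prop :=
  ∃ (n : ℕ) (φ : Fin n → (Fin k → Bool) → ℝ) (α : Fin n → ℝ) (κ : ℝ),
    (∀ i, IsFan (φ i)) ∧ (∀ i, 0 ≤ α i) ∧ ∀ x, f x = ∑ i, α i * φ i x + κ

open Classical in
lemma prop_sub {p1 p2 p3 p4 q1 q2 q3 q4 : Prop} (f1 : p1 → p4) (f2 : p2 → p4) (f3 : q1 → q4)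
    (f4 : q2 → q4) (f5 : p1 → p2 → p3) (f6 : p1 → q2 → q3) (f7 : p2 → q1 → q3)
    (f8 : q1 → q2 → q3 ∨ p4) :
    ((if p3 then -2 else if q3 then -1 else 0) + if p4 then -2 else if q4 then -1 else 0 : ℤ) ≤
      (if p1 then -2 else if q1 then -1 else 0) + if p2 then -2 else if q2 then -1 else 0 := by
  split_ifs <;> first | omega | (exfalso; tauto)

open Classical in
lemma up_fan {L : Type} [Lattice L] [OrderBot L] (A : Finset L)
    (h : ∀ a ∈ A, ∀ b ∈ A, a ≠ b → a ⊔ b = A.sup id) :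
    ∃ ψ : L → ℤ, (∀ x, (ψ x : ℝ) = if A.sup id ≤ x then -2 else if ∃ a ∈ A, a ≤ x then -1 else 0) ∧
      (∀ x, -2 ≤ ψ x ∧ ψ x ≤ 0) ∧ Antitone ψ ∧ ∀ u v, ψ (u ⊓ v) + ψ (u ⊔ v) ≤ ψ u + ψ v := by
  refine ⟨fun x => if A.sup id ≤ x then -2 else if ∃ a ∈ A, a ≤ x then -1 else 0,
    fun x => by dsimp only; split_ifs <;> simp, fun x => by dsimp only; split_ifs <;> simp,
    fun x y hxy => ?_, fun u v => ?_⟩
  · have f1 : A.sup id ≤ x → A.sup id ≤ y := fun h => h.trans hxy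
    have f2 : (∃ a ∈ A, a ≤ x) → ∃ a ∈ A, a ≤ y := fun ⟨a, h1, h2⟩ => ⟨a, h1, h2.trans hxy⟩
    dsimp only
    split_ifs <;> first | omega | exact absurd (f1 ‹_›) ‹_› | exact absurd (f2 ‹_›) ‹_›
  · have f1 : A.sup id ≤ u → A.sup id ≤ u ⊔ v := fun h => h.trans le_sup_left
    have f2 : A.sup id ≤ v → A.sup id ≤ u ⊔ v := fun h => h.trans le_sup_right
    have f3 : (∃ a ∈ A, a ≤ u) → ∃ a ∈ A, a ≤ u ⊔ v :=
      fun ⟨a, h1, h2⟩ => ⟨a, h1, h2.trans le_sup_left⟩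
    have f4 : (∃ a ∈ A, a ≤ v) → ∃ a ∈ A, a ≤ u ⊔ v :=
      fun ⟨a, h1, h2⟩ => ⟨a, h1, h2.trans le_sup_right⟩
    have f5 : A.sup id ≤ u → A.sup id ≤ v → A.sup id ≤ u ⊓ v := le_inf
    have f6 : A.sup id ≤ u → (∃ a ∈ A, a ≤ v) → ∃ a ∈ A, a ≤ u ⊓ v :=
      fun h ⟨a, h1, h2⟩ => ⟨a, h1, le_inf ((le_sup (f := id) h1).trans h) h2⟩
    have f7 : A.sup id ≤ v → (∃ a ∈ A, a ≤ u) → ∃ a ∈ A, a ≤ u ⊓ v :=
      fun h ⟨a, h1, h2⟩ => ⟨a, h1, le_inf h2 ((le_sup (f := id) h1).trans h)⟩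
    have f8 : (∃ a ∈ A, a ≤ u) → (∃ a ∈ A, a ≤ v) →
        (∃ a ∈ A, a ≤ u ⊓ v) ∨ A.sup id ≤ u ⊔ v := by
      rintro ⟨a, h1, h2⟩ ⟨b, h3, h4⟩
      by_cases e : a = b
      · exact Or.inl ⟨a, h1, le_inf h2 (e ▸ h4)⟩
      · exact Or.inr (h a h1 b h3 e ▸ sup_le_sup h2 h4)
    dsimp only
    convert prop_sub f1 f2 f3 f4 f5 f6 f7 f8

lemma fan_int {k : ℕ} {φ : (Fin k → Bool) → ℝ} (h : IsFan φ) :
    ∃ ψ : (Fin k → Bool) → ℤ, (∀ x, (ψ x : ℝ) = φ x) ∧ (∀ x, -2 ≤ ψ x ∧ ψ x ≤ 0) ∧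
      (Antitone ψ ∨ Monotone ψ) ∧ ∀ u v, ψ (u ⊓ v) + ψ (u ⊔ v) ≤ ψ u + ψ v := by
  obtain ⟨A, -, ⟨h1, h2⟩ | ⟨h1, h2⟩⟩ := h
  · obtain ⟨ψ, a, b, c, d⟩ := up_fan A h1
    exact ⟨ψ, fun x => by rw [a, h2], b, Or.inl c, d⟩
  · obtain ⟨ψ, a, b, c, d⟩ := up_fan (L := (Fin k → Bool)ᵒᵈ) A h1
    refine ⟨ψ, fun x => by rw [h2]; exact (a x).trans (by congr), b,
      Or.inr fun x y hxy => c hxy, fun u v => ?_⟩
    have := d u v
    rw [add_comm] at this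
    exact this

def pt (l : List (Fin 6)) : Fin 6 → Bool := fun i => decide (i ∈ l)

def wt (x : Fin 6 → Bool) : ℤ := ∑ i, if x i then 1 else 0

def ff (x : Fin 6 → Bool) : ℤ := min (wt x) 3

def dl {R : Type} [Ring R] (ψ : (Fin 6 → Bool) → R) (S : List (Fin 6)) (i j : Fin 6) : R :=
  ψ (pt (i :: S)) + ψ (pt (j :: S)) - ψ (pt (i :: S) ⊓ pt (j :: S)) - ψ (pt (i :: S) ⊔ pt (j :: S))

lemma dl_eq (ψ : (Fin 6 → Bool) → ℤ) (S : List (Fin 6)) (i j : Fin 6) (a b c : List (Fin 6))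
    (h : pt (i :: S) = pt a ∧ pt (j :: S) = pt b ∧ pt a ⊓ pt b = pt S ∧ pt a ⊔ pt b = pt c) :
    dl ψ S i j = ψ (pt a) + ψ (pt b) - ψ (pt S) - ψ (pt c) := by
  rw [dl, h.1, h.2.1, h.2.2.1, h.2.2.2]

lemma key (ψ : (Fin 6 → Bool) → ℤ) (hb : ∀ x, -2 ≤ ψ x ∧ ψ x ≤ 0) (hm : Antitone ψ ∨ Monotone ψ)
    (h0 : 0 ≤ dl ψ [0, 1] 2 3) (hz : ∀ S i j, dl ff S i j = 0 → dl ψ S i j = 0) :
    dl ψ [0, 1] 2 3 = 0 := by
  rw [dl_eq ψ [0, 1] 2 3 [0, 1, 2] [0, 1, 3] [0, 1, 2, 3] (by decide)] at h0 ⊢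
  rcases hm with hm | hm
  · skip
    have z0 := (dl_eq ψ [] 0 1 [0] [1] [0, 1] (by decide)).symm.trans
      (hz _ _ _ (by decide +kernel))
    have z1 := (dl_eq ψ [] 0 2 [0] [2] [0, 2] (by decide)).symm.trans
      (hz _ _ _ (by decide +kernel))
    have z2 := (dl_eq ψ [0] 1 2 [0, 1] [0, 2] [0, 1, 2] (by decide)).symm.trans
      (hz _ _ _ (by decide +kernel))
    have z3 := (dl_eq ψ [] 0 3 [0] [3] [0, 3] (by decide)).symm.trans
      (hz _ _ _ (by decide +kernel))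
    have z4 := (dl_eq ψ [0] 1 3 [0, 1] [0, 3] [0, 1, 3] (by decide)).symm.trans
      (hz _ _ _ (by decide +kernel))
    have z5 := (dl_eq ψ [] 0 4 [0] [4] [0, 4] (by decide)).symm.trans
      (hz _ _ _ (by decide +kernel))
    have z6 := (dl_eq ψ [0] 1 4 [0, 1] [0, 4] [0, 1, 4] (by decide)).symm.trans
      (hz _ _ _ (by decide +kernel))
    have z7 := (dl_eq ψ [0, 1, 2] 3 4 [0, 1, 2, 3] [0, 1, 2, 4] [0, 1, 2, 3, 4] (by decide)).symm.trans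
      (hz _ _ _ (by decide +kernel))
    have z8 := (dl_eq ψ [] 0 5 [0] [5] [0, 5] (by decide)).symm.trans
      (hz _ _ _ (by decide +kernel))
    have z9 := (dl_eq ψ [0] 1 5 [0, 1] [0, 5] [0, 1, 5] (by decide)).symm.trans
      (hz _ _ _ (by decide +kernel))
    have z10 := (dl_eq ψ [0, 1, 2] 3 5 [0, 1, 2, 3] [0, 1, 2, 5] [0, 1, 2, 3, 5] (by decide)).symm.trans
      (hz _ _ _ (by decide +kernel))
    have z11 := (dl_eq ψ [0, 1, 2, 3] 4 5 [0, 1, 2, 3, 4] [0, 1, 2, 3, 5] [0, 1, 2, 3, 4, 5] (by decide)).symm.trans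
      (hz _ _ _ (by decide +kernel))
    have z12 := (dl_eq ψ [0, 1, 4] 2 3 [0, 1, 2, 4] [0, 1, 3, 4] [0, 1, 2, 3, 4] (by decide)).symm.trans
      (hz _ _ _ (by decide +kernel))
    have z13 := (dl_eq ψ [0, 1, 3] 2 4 [0, 1, 2, 3] [0, 1, 3, 4] [0, 1, 2, 3, 4] (by decide)).symm.trans
      (hz _ _ _ (by decide +kernel))
    have z14 := (dl_eq ψ [0, 1, 5] 2 3 [0, 1, 2, 5] [0, 1, 3, 5] [0, 1, 2, 3, 5] (by decide)).symm.trans
      (hz _ _ _ (by decide +kernel))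
    have z15 := (dl_eq ψ [0, 1, 3] 2 5 [0, 1, 2, 3] [0, 1, 3, 5] [0, 1, 2, 3, 5] (by decide)).symm.trans
      (hz _ _ _ (by decide +kernel))
    have m0 := hm (show pt [] ≤ pt [0] from Pi.le_def.2 (by decide))
    have m1 := hm (show pt [] ≤ pt [1] from Pi.le_def.2 (by decide))
    have m2 := hm (show pt [] ≤ pt [2] from Pi.le_def.2 (by decide))
    have m3 := hm (show pt [] ≤ pt [3] from Pi.le_def.2 (by decide))
    have m4 := hm (show pt [] ≤ pt [4] from Pi.le_def.2 (by decide))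
    have m5 := hm (show pt [] ≤ pt [5] from Pi.le_def.2 (by decide))
    have b0 := hb (pt [])
    have b1 := hb (pt [0, 1, 2, 3, 4, 5])
    omega
  · skip
    have z0 := (dl_eq ψ [0, 1, 2, 3] 4 5 [0, 1, 2, 3, 4] [0, 1, 2, 3, 5] [0, 1, 2, 3, 4, 5] (by decide)).symm.trans
      (hz _ _ _ (by decide +kernel))
    have z1 := (dl_eq ψ [0, 1, 3, 5] 4 2 [0, 1, 3, 4, 5] [0, 1, 2, 3, 5] [0, 1, 2, 3, 4, 5] (by decide)).symm.trans
      (hz _ _ _ (by decide +kernel))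
    have z2 := (dl_eq ψ [0, 1, 3] 5 2 [0, 1, 3, 5] [0, 1, 2, 3] [0, 1, 2, 3, 5] (by decide)).symm.trans
      (hz _ _ _ (by decide +kernel))
    have z3 := (dl_eq ψ [0, 1, 2, 5] 4 3 [0, 1, 2, 4, 5] [0, 1, 2, 3, 5] [0, 1, 2, 3, 4, 5] (by decide)).symm.trans
      (hz _ _ _ (by decide +kernel))
    have z4 := (dl_eq ψ [0, 1, 2] 5 3 [0, 1, 2, 5] [0, 1, 2, 3] [0, 1, 2, 3, 5] (by decide)).symm.trans
      (hz _ _ _ (by decide +kernel))
    have z5 := (dl_eq ψ [1, 2, 3, 5] 4 0 [1, 2, 3, 4, 5] [0, 1, 2, 3, 5] [0, 1, 2, 3, 4, 5] (by decide)).symm.trans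
      (hz _ _ _ (by decide +kernel))
    have z6 := (dl_eq ψ [1, 2, 3] 5 0 [1, 2, 3, 5] [0, 1, 2, 3] [0, 1, 2, 3, 5] (by decide)).symm.trans
      (hz _ _ _ (by decide +kernel))
    have z7 := (dl_eq ψ [1] 3 0 [1, 3] [0, 1] [0, 1, 3] (by decide)).symm.trans
      (hz _ _ _ (by decide +kernel))
    have z8 := (dl_eq ψ [0, 2, 3, 5] 4 1 [0, 2, 3, 4, 5] [0, 1, 2, 3, 5] [0, 1, 2, 3, 4, 5] (by decide)).symm.trans
      (hz _ _ _ (by decide +kernel))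
    have z9 := (dl_eq ψ [0, 2, 3] 5 1 [0, 2, 3, 5] [0, 1, 2, 3] [0, 1, 2, 3, 5] (by decide)).symm.trans
      (hz _ _ _ (by decide +kernel))
    have z10 := (dl_eq ψ [0] 3 1 [0, 3] [0, 1] [0, 1, 3] (by decide)).symm.trans
      (hz _ _ _ (by decide +kernel))
    have z11 := (dl_eq ψ [] 0 1 [0] [1] [0, 1] (by decide)).symm.trans
      (hz _ _ _ (by decide +kernel))
    have z12 := (dl_eq ψ [1] 2 3 [1, 2] [1, 3] [1, 2, 3] (by decide)).symm.trans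
      (hz _ _ _ (by decide +kernel))
    have z13 := (dl_eq ψ [1] 2 0 [1, 2] [0, 1] [0, 1, 2] (by decide)).symm.trans
      (hz _ _ _ (by decide +kernel))
    have z14 := (dl_eq ψ [0] 2 3 [0, 2] [0, 3] [0, 2, 3] (by decide)).symm.trans
      (hz _ _ _ (by decide +kernel))
    have z15 := (dl_eq ψ [0] 2 1 [0, 2] [0, 1] [0, 1, 2] (by decide)).symm.trans
      (hz _ _ _ (by decide +kernel))
    have m0 := hm (show pt [1, 2, 3, 4, 5] ≤ pt [0, 1, 2, 3, 4, 5] from Pi.le_def.2 (by decide))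
    have m1 := hm (show pt [0, 2, 3, 4, 5] ≤ pt [0, 1, 2, 3, 4, 5] from Pi.le_def.2 (by decide))
    have m2 := hm (show pt [0, 1, 3, 4, 5] ≤ pt [0, 1, 2, 3, 4, 5] from Pi.le_def.2 (by decide))
    have m3 := hm (show pt [0, 1, 2, 4, 5] ≤ pt [0, 1, 2, 3, 4, 5] from Pi.le_def.2 (by decide))
    have m4 := hm (show pt [0, 1, 2, 3, 5] ≤ pt [0, 1, 2, 3, 4, 5] from Pi.le_def.2 (by decide))
    have m5 := hm (show pt [0, 1, 2, 3, 4] ≤ pt [0, 1, 2, 3, 4, 5] from Pi.le_def.2 (by decide))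
    have b0 := hb (pt [])
    have b1 := hb (pt [0, 1, 2, 3, 4, 5])
    omega

theorem result : ∃ (k : ℕ) (f : (Fin k → Bool) → ℝ), Submod f ∧ Expressible f ∧ ¬InCone f := by
  refine ⟨6, fun x => ff x, fun u v => ?_, ?_, ?_⟩
  · have : ∀ u v, ff (u ⊓ v) + ff (u ⊔ v) ≤ ff u + ff v := by decide +kernel
    dsimp only
    exact_mod_cast this u v
  · refine ⟨1, 7, fun i w => if i = 6 then (if w 0 then 3 else 0) else (if w 0 && !w 1 then 1 else 0),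
      fun _ => 1, ![.inl 0, .inl 1, .inl 2, .inl 3, .inl 4, .inl 5, .inr 0], fun _ => .inr 0, 0,
      fun i u v => ?_, fun _ => zero_le_one, fun x => ?_⟩
    · simp only [Pi.inf_apply, Pi.sup_apply]
      split_ifs <;> simp_all <;> norm_num
    · have e : ∀ y : Fin 1 → Bool, ∑ i : Fin 7, (1 : ℝ) * (fun (i : Fin 7) (w : Fin 2 → Bool) =>
          if i = 6 then (if w 0 then (3 : ℝ) else 0) else (if w 0 && !w 1 then 1 else 0)) i
          ![Sum.elim x y ((![.inl 0, .inl 1, .inl 2, .inl 3, .inl 4, .inl 5, .inr 0] :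
            Fin 7 → Fin 6 ⊕ Fin 1) i), Sum.elim x y (.inr 0)] + 0 =
          if y 0 then 3 else (wt x : ℝ) := by
        intro y
        cases hy : y 0 <;> simp [Fin.sum_univ_succ, wt, hy, -Finset.sum_boole]
        all_goals congr
      simp only [e]
      constructor
      · by_cases h : wt x ≤ 3
        · exact ⟨fun _ => false, by simp [ff, h]⟩
        · exact ⟨fun _ => true, by simp [ff, (not_le.1 h).le]⟩
      · rintro _ ⟨y, rfl⟩
        dsimp only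
        split_ifs
        · exact_mod_cast min_le_right (wt x) 3
        · exact_mod_cast min_le_left (wt x) 3
  · rintro ⟨n, φ, α, κ, h1, h2, h3⟩
    choose ψ e hb hm hs using fun i => fan_int (h1 i)
    have hd : ∀ S i j, ((dl ff S i j : ℤ) : ℝ) = ∑ t, α t * (dl (ψ t) S i j : ℤ) := by
      intro S i j
      simp only [dl, Int.cast_sub, Int.cast_add, h3, e, mul_add, mul_sub, sum_add_distrib,
        sum_sub_distrib]
      ring
    have hn : ∀ t S i j, 0 ≤ dl (ψ t) S i j := by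
      intro t S i j
      have := hs t (pt (i :: S)) (pt (j :: S))
      unfold dl; omega
    have hz : ∀ t, α t * (dl (ψ t) [0, 1] 2 3 : ℤ) = 0 := by
      intro t
      by_cases ha : α t = 0
      · simp [ha]
      rw [key (ψ t) (hb t) (hm t) (hn t _ _ _) ?_]
      · simp
      intro S i j h
      have := hd S i j
      rw [h, Int.cast_zero, eq_comm, sum_eq_zero_iff_of_nonneg (fun t _ =>
        mul_nonneg (h2 t) (by exact_mod_cast hn t S i j))] at this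
      exact_mod_cast (mul_eq_zero.1 (this t (mem_univ t))).resolve_left ha
    have := hd [0, 1] 2 3
    rw [show dl ff [0, 1] 2 3 = 1 by decide +kernel] at this
    simp [hz] at this

end Pool.Agent.Results.MP_09575c_lc.Counter
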